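import Pool.Agent.H.MP_3f8f93_al.Main

set_option autoImplicit false

namespace Pool.Agent.Results.MP_3f8f93_al.No

/-- Formal inverse of a word; the letter `(a, true)` is `a` and `(a, false)` is its inverse. -/
def inv {A : Type} (u : List (A × Bool)) : List (A × Bool) := (u.map fun l => (l.1, !l.2)).reverse

/-- The generating pairs of the Vagner congruence. -/
def Rel (A : Type) (x y : FreeMonoid (A × Bool)) : Prop :=
  (∃ u : List (A × Bool), x = .ofList (u ++ inv u ++ u) ∧ y = .ofList u) ∨
  ∃ u v : List (A × Bool), x = .ofList (u ++ inv u ++ (v ++ inv v)) ∧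
    y = .ofList (v ++ inv v ++ (u ++ inv u))

/-- The free inverse monoid on `A`. -/
abbrev FIM (A : Type) := (conGen (Rel A)).Quotient

/-- The canonical map from words to the free inverse monoid. -/
def proj (A : Type) (w : List (A × Bool)) : FIM A := (conGen (Rel A)).mk' (.ofList w)

open Pool.Agent.Lib Pool.Agent.H in
theorem result (A : Type) [Finite A] (φ : FIM A →* FIM A)
    (h : ∃ L : Language (A × Bool), L.IsContextFree ∧ proj A '' L = {x | φ x = x}) :
    ∃ L : Language (A × Bool), L.IsRegular ∧ proj A '' L = {x | φ x = x} := by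
  obtain ⟨L, a, b⟩ := h
  have e : Rel A = IMon.Rel fun _ _ => False := by
    ext x y; simp only [IMon.Rel, or_false]; rfl
  have e' : ∀ u : List (A × Bool), MP_ab6a8b_al.hat (fun x => [(x, true)]) u = u := fun u => by
    induction u with
    | nil => rfl
    | cons l u ih => rw [MP_ab6a8b_al.hat_cons, ih]; obtain ⟨_, _ | _⟩ := l <;> rfl
  refine MP_3f8f93_al.MM.main ⟨proj A, rfl, fun _ _ => rfl, Con.mk'_surjective, fun u v => ?_⟩ φ a b
  rw [proj, proj, Con.coe_mk', Con.eq, e]
  exact ⟨fun h => by
    simpa only [e'] using IMon.q_mu (β := fun x => [(x, true)]) (by simp) ((Con.eq _).2 h),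
    fun h => (Con.eq _).1 (IMon.munn h)⟩

end Pool.Agent.Results.MP_3f8f93_al.No
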